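import Pool.Agent.H16.Color

set_option autoImplicit false

namespace Pool.Agent.Results.MP_287fcc_lc.Forty

/-- A representation of the color algebra with `n` atoms over `U`: a colouring of the pairs of
distinct points with `n - 1` colours, all used, with no monochromatic triangle, and with every
colour path `(j, k)` other than `(i, i)` realised over every pair of colour `i`. -/
def IsRep (n : ℕ) (U : Type) (c : U → U → Fin (n - 1)) : Prop :=
  (∀ x y, c x y = c y x) ∧
  (∀ i : Fin (n - 1), ∃ x y, x ≠ y ∧ c x y = i) ∧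
  (∀ x y z, x ≠ y → y ≠ z → x ≠ z → ¬ (c x y = c y z ∧ c y z = c x z)) ∧
  (∀ x y, x ≠ y → ∀ j k : Fin (n - 1), ¬ (j = c x y ∧ k = c x y) →
    ∃ z, z ≠ x ∧ z ≠ y ∧ c x z = j ∧ c z y = k)

/-- The color algebra with five atoms has a representation on 40 points. -/
theorem result : ∃ n : ℕ, 4 < n ∧ ∃ (U : Type) (c : U → U → Fin (n - 1)),
    Finite U ∧ 2 ≤ Nat.card U ∧ IsRep n U c ∧ ¬ IsPrimePow (Nat.card U) := by
  refine ⟨5, by norm_num, Fin 40, H16.Color.c, inferInstance, by simp,
    ⟨H16.Color.symm, H16.Color.used, H16.Color.tri, H16.Color.wit⟩, ?_⟩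
  rw [Nat.card_eq_fintype_card, Fintype.card_fin]
  exact H16.Color.npp

end Pool.Agent.Results.MP_287fcc_lc.Forty
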